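import Mathlib

open Filter Topology

namespace Pool.Agent.Results.MP_39d387_al.NotTwoPseudo

/-- Every locally finite family of nonempty open subsets is finite. -/
def IsPseudocompact (X : Type) [TopologicalSpace X] : Prop :=
  ∀ (ι : Type) (U : ι → Set X), (∀ i, IsOpen (U i) ∧ (U i).Nonempty) → LocallyFinite U → Finite ι

/-- `⋂ closure (U n)⁻¹ ≠ ∅` for every decreasing sequence of nonempty open sets. -/
def IsTwoPseudocompact (X : Type) [TopologicalSpace X] [Group X] : Prop :=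
  ∀ U : ℕ → Set X, (∀ n, IsOpen (U n) ∧ (U n).Nonempty) → (∀ n, U (n + 1) ⊆ U n) →
    (⋂ n, closure (U n)⁻¹).Nonempty

section General

variable {K L : Type} [AddCommGroup K] [AddCommGroup L] [LinearOrder L] [IsOrderedAddMonoid L]

/-- The group `K` with the refined topology given by `φ`. -/
def GT (_φ : K →+ L) : Type := Multiplicative K

instance (φ : K →+ L) : CommGroup (GT φ) := inferInstanceAs (CommGroup (Multiplicative K))

variable {φ : K →+ L}

/-- The underlying element of `K`. -/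
def val (x : GT φ) : K := Multiplicative.toAdd x

/-- The element of the refined group. -/
def mk (x : K) : GT φ := Multiplicative.ofAdd x

lemma val_mk (x : K) : val (mk x : GT φ) = x := rfl

lemma mk_val (x : GT φ) : mk (val x) = x := rfl

lemma val_mul (x y : GT φ) : val (x * y) = val x + val y := rfl

lemma val_inv (x : GT φ) : val x⁻¹ = - val x := rfl

variable [TopologicalSpace K]

instance : TopologicalSpace (GT φ) where
  IsOpen s := ∀ x ∈ s, ∃ V : Set K, IsOpen V ∧ val x ∈ V ∧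
    ∀ y : GT φ, val y ∈ V → φ (val x) ≤ φ (val y) → y ∈ s
  isOpen_univ := fun x _ => ⟨Set.univ, isOpen_univ, Set.mem_univ _, fun _ _ _ => Set.mem_univ _⟩
  isOpen_inter := by
    rintro s t hs ht x ⟨hxs, hxt⟩
    obtain ⟨V, hV, hxV, hVs⟩ := hs x hxs
    obtain ⟨W, hW, hxW, hWt⟩ := ht x hxt
    exact ⟨V ∩ W, hV.inter hW, ⟨hxV, hxW⟩, fun y hy hφ => ⟨hVs y hy.1 hφ, hWt y hy.2 hφ⟩⟩
  isOpen_sUnion := by
    rintro S hS x ⟨s, hs, hxs⟩
    obtain ⟨V, hV, hxV, hVs⟩ := hS s hs x hxs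
    exact ⟨V, hV, hxV, fun y hy hφ => ⟨s, hs, hVs y hy hφ⟩⟩

lemma isOpen_def {s : Set (GT φ)} : IsOpen s ↔ ∀ x ∈ s, ∃ V : Set K, IsOpen V ∧ val x ∈ V ∧
    ∀ y : GT φ, val y ∈ V → φ (val x) ≤ φ (val y) → y ∈ s := Iff.rfl

/-- Basic open sets. -/
def bas (φ : K →+ L) (V : Set K) (l : L) : Set (GT φ) := {y | val y ∈ V ∧ l ≤ φ (val y)}

lemma isOpen_bas {V : Set K} (hV : IsOpen V) (l : L) : IsOpen (bas φ V l) := by
  rw [isOpen_def]
  rintro x ⟨hx, hl⟩
  exact ⟨V, hV, hx, fun y hy hφ => ⟨hy, hl.trans hφ⟩⟩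

lemma exists_bas {s : Set (GT φ)} (hs : IsOpen s) {x : GT φ} (hx : x ∈ s) :
    ∃ V : Set K, IsOpen V ∧ val x ∈ V ∧ bas φ V (φ (val x)) ⊆ s := by
  obtain ⟨V, hV, hxV, h⟩ := isOpen_def.mp hs x hx
  exact ⟨V, hV, hxV, fun y hy => h y hy.1 hy.2⟩

lemma mem_nhds_iff' {s : Set (GT φ)} {x : GT φ} : s ∈ 𝓝 x ↔
    ∃ V : Set K, IsOpen V ∧ val x ∈ V ∧ bas φ V (φ (val x)) ⊆ s := by
  rw [mem_nhds_iff]
  constructor
  · rintro ⟨t, hts, ht, hxt⟩
    obtain ⟨V, hV, hxV, h⟩ := exists_bas ht hxt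
    exact ⟨V, hV, hxV, h.trans hts⟩
  · rintro ⟨V, hV, hxV, h⟩
    exact ⟨_, h, isOpen_bas hV _, hxV, le_rfl⟩

lemma continuous_val : Continuous (val : GT φ → K) := by
  rw [continuous_def]
  intro V hV
  rw [isOpen_def]
  intro x hx
  exact ⟨V, hV, hx, fun y hy _ => hy⟩

variable [IsTopologicalAddGroup K]

instance : ContinuousMul (GT φ) := by
  constructor
  rw [continuous_iff_continuousAt]
  rintro ⟨x, y⟩ s hs
  rw [mem_nhds_iff'] at hs
  obtain ⟨V, hV, hxV, h⟩ := hs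
  have h1 : Tendsto (fun p : K × K => p.1 + p.2) (𝓝 (val x, val y)) (𝓝 (val x + val y)) :=
    continuous_add.tendsto _
  have h2 : V ∈ 𝓝 (val x + val y) := hV.mem_nhds hxV
  have h3 := h1 h2
  rw [mem_map, nhds_prod_eq, mem_prod_iff] at h3
  obtain ⟨A, hA, B, hB, hAB⟩ := h3
  obtain ⟨A', hA'A, hA', hxA'⟩ := mem_nhds_iff.mp hA
  obtain ⟨B', hB'B, hB', hyB'⟩ := mem_nhds_iff.mp hB
  rw [mem_map, nhds_prod_eq, mem_prod_iff]
  refine ⟨bas φ A' (φ (val x)), (isOpen_bas hA' _).mem_nhds ⟨hxA', le_rfl⟩,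
    bas φ B' (φ (val y)), (isOpen_bas hB' _).mem_nhds ⟨hyB', le_rfl⟩, ?_⟩
  rintro ⟨u, v⟩ ⟨⟨hu, hu'⟩, ⟨hv, hv'⟩⟩
  apply h
  refine ⟨?_, ?_⟩
  · exact hAB (show (val u, val v) ∈ A ×ˢ B from ⟨hA'A hu, hB'B hv⟩)
  · show φ (val (x * y)) ≤ φ (val (u * v))
    rw [val_mul, val_mul, map_add, map_add]
    exact add_le_add hu' hv'

variable [CompactSpace K] [T2Space K]

/-- The key property: large elements are everywhere nonmeagre. -/
lemma not_meagre (hcof : ∀ l : L, ∃ k, l < φ k) {V : Set K} (hV : IsOpen V) (hne : V.Nonempty)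
    (l : L) : ¬ IsMeagre {y : K | y ∈ V ∧ l ≤ φ y} := by
  intro hm
  obtain ⟨v, hv⟩ := hne
  obtain ⟨W, hW, h0W, hWW⟩ : ∃ W : Set K, IsOpen W ∧ (0 : K) ∈ W ∧
      ∀ a ∈ W, ∀ b ∈ W, v + a ∈ V ∧ v + (a - b) ∈ V := by
    have h1 : Tendsto (fun p : K × K => v + (p.1 - p.2)) (𝓝 (0, 0)) (𝓝 (v + (0 - 0))) := by
      apply Continuous.tendsto'
      · fun_prop
      · rfl
    rw [sub_self, add_zero] at h1
    have h3 := h1 (hV.mem_nhds hv)
    rw [mem_map, nhds_prod_eq, mem_prod_iff] at h3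
    obtain ⟨A, hA, B, hB, hAB⟩ := h3
    obtain ⟨W, hWs, hW, h0⟩ := mem_nhds_iff.mp (inter_mem hA hB)
    refine ⟨W, hW, h0, fun a ha b hb => ⟨?_, ?_⟩⟩
    · have := hAB (show (a, (0 : K)) ∈ A ×ˢ B from ⟨(hWs ha).1, (hWs h0).2⟩)
      simpa using this
    · exact hAB (show (a, b) ∈ A ×ˢ B from ⟨(hWs ha).1, (hWs hb).2⟩)
  have key : ∀ c ∈ W, φ c < (l - φ v) + (l - φ v) := by
    intro c hc
    by_contra hcon
    push Not at hcon
    have hm1 : IsMeagre ((fun y : K => v + y) ⁻¹' {y : K | y ∈ V ∧ l ≤ φ y}) :=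
      hm.preimage_of_isOpenMap (continuous_const.add continuous_id)
        (Homeomorph.addLeft v).isOpenMap
    have hm2 : IsMeagre ((fun y : K => v + (c - y)) ⁻¹' {y : K | y ∈ V ∧ l ≤ φ y}) := by
      apply hm.preimage_of_isOpenMap (by fun_prop)
      have : (fun y : K => v + (c - y)) =
          (Homeomorph.addLeft v) ∘ (Homeomorph.subLeft c) := by
        ext y
        rfl
      rw [this]
      exact (Homeomorph.addLeft v).isOpenMap.comp (Homeomorph.subLeft c).isOpenMap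
    have hm3 := hm1.union hm2
    have hsub : W ⊆ ((fun y : K => v + y) ⁻¹' {y : K | y ∈ V ∧ l ≤ φ y}) ∪
        ((fun y : K => v + (c - y)) ⁻¹' {y : K | y ∈ V ∧ l ≤ φ y}) := by
      intro y hy
      by_cases h : l ≤ φ (v + y)
      · left
        exact ⟨(hWW y hy y hy).1, h⟩
      · right
        refine ⟨(hWW c hc y hy).2, ?_⟩
        rw [map_add, map_sub]
        rw [map_add] at h
        push Not at h
        have h5 : l - φ v + (l - φ v) ≤ φ c := hcon
        have h6 : l = (l - φ v + (l - φ v)) + φ v - (l - φ v) := by abel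
        have h7 : φ y < l - φ v := by
          rw [lt_sub_iff_add_lt, add_comm]
          exact h
        calc l = φ v + ((l - φ v + (l - φ v)) - (l - φ v)) := by abel
          _ ≤ φ v + (φ c - φ y) := by
            gcongr
    exact not_isMeagre_of_isOpen hW ⟨0, h0W⟩ (hm3.mono hsub)
  obtain ⟨F, hF⟩ := isCompact_univ.elim_finite_subcover (fun x : K => (fun y => y - x) ⁻¹' W)
    (fun x => hW.preimage (by fun_prop)) (fun x _ => Set.mem_iUnion.mpr ⟨x, by
      show x - x ∈ W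
      rw [sub_self]
      exact h0W⟩)
  obtain ⟨M, hM⟩ : ∃ M, ∀ x ∈ F, φ x ≤ M := by
    obtain ⟨M, hM⟩ := (F.finite_toSet.image φ).bddAbove
    exact ⟨M, fun x hx => hM ⟨x, hx, rfl⟩⟩
  obtain ⟨k, hk⟩ := hcof (M + (l - φ v + (l - φ v)))
  have hkU := hF (Set.mem_univ k)
  rw [Set.mem_iUnion₂] at hkU
  obtain ⟨x, hx, hkx⟩ := hkU
  have h1 : φ (k - x) < l - φ v + (l - φ v) := key _ hkx
  rw [map_sub] at h1
  have h2 := hM x hx
  have h3 : φ k < M + (l - φ v + (l - φ v)) := by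
    calc φ k = φ x + (φ k - φ x) := by abel
      _ < M + (l - φ v + (l - φ v)) := add_lt_add_of_le_of_lt h2 h1
  exact absurd hk (not_lt.mpr h3.le)

lemma bas_nonempty (hcof : ∀ l : L, ∃ k, l < φ k) {V : Set K} (hV : IsOpen V) (hne : V.Nonempty)
    (l : L) : (bas φ V l).Nonempty := by
  by_contra h
  rw [Set.not_nonempty_iff_eq_empty] at h
  apply not_meagre hcof hV hne l
  have : {y : K | y ∈ V ∧ l ≤ φ y} = ∅ := h
  rw [this]
  exact IsMeagre.empty

theorem pseudocompact (hcof : ∀ l : L, ∃ k, l < φ k)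
    (hL : ∀ f : ℕ → L, ∃ l, ∀ n, f n ≤ l) : IsPseudocompact (GT φ) := by
  intro ι U hU hlf
  by_contra hinf
  rw [not_finite_iff_infinite] at hinf
  obtain ⟨e, he⟩ : ∃ e : ℕ → ι, Function.Injective e :=
    ⟨_, (Infinite.natEmbedding ι).injective⟩
  choose x hx using fun n => (hU (e n)).2
  choose V hV hxV hVU using fun n => exists_bas (hU (e n)).1 (hx n)
  obtain ⟨l, hl⟩ := hL (fun n => φ (val (x n)))
  obtain ⟨z, hz⟩ : ∃ z : K, MapClusterPt z atTop (fun n => val (x n)) := by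
    obtain ⟨z, -, hz⟩ := isCompact_univ.exists_mapClusterPt (f := atTop)
      (u := fun n => val (x n)) (by simp)
    exact ⟨z, hz⟩
  obtain ⟨T, hT, hfin⟩ := hlf (mk z)
  rw [mem_nhds_iff'] at hT
  obtain ⟨W, hW, hzW, hWT⟩ := hT
  have hfreq := (hz.frequently (hW.mem_nhds hzW))
  have hinj : (e '' {n | val (x n) ∈ W}).Finite := by
    apply hfin.subset
    rintro _ ⟨n, hn, rfl⟩
    obtain ⟨y, ⟨hyW, hyV⟩, hy⟩ := bas_nonempty hcof (hW.inter (hV n)) ⟨val (x n), hn, hxV n⟩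
      (max l (φ z))
    refine ⟨y, hVU n ⟨hyV, (hl n).trans ((le_max_left _ _).trans hy)⟩,
      hWT ⟨hyW, (le_max_right _ _).trans hy⟩⟩
  have hfin2 := hinj.of_finite_image he.injOn
  rw [Nat.frequently_atTop_iff_infinite] at hfreq
  exact hfreq hfin2

theorem baire [SecondCountableTopology K] (hcof : ∀ l : L, ∃ k, l < φ k)
    (hL : ∀ f : ℕ → L, ∃ l, ∀ n, f n ≤ l) : BaireSpace (GT φ) := by
  constructor
  intro D hD hDd
  have key : ∀ n, ∃ O : Set K, ∃ l : L, IsOpen O ∧ Dense O ∧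
      ∀ y : GT φ, val y ∈ O → l ≤ φ (val y) → y ∈ D n := by
    intro n
    choose V hV hxV hVU using fun d : D n => exists_bas (hD n) d.2
    obtain ⟨T, hT, hTU⟩ := TopologicalSpace.isOpen_iUnion_countable V hV
    have hdense : Dense (⋃ d, V d) := by
      rw [dense_iff_inter_open]
      intro W hW hWne
      obtain ⟨w, hw⟩ := hWne
      obtain ⟨y, hyW, hyD⟩ := (hDd n).inter_open_nonempty _ (hW.preimage continuous_val)
        ⟨mk w, hw⟩
      exact ⟨val y, hyW, Set.mem_iUnion.mpr ⟨⟨y, hyD⟩, hxV ⟨y, hyD⟩⟩⟩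
    obtain ⟨l, hl⟩ : ∃ l, ∀ d ∈ T, φ (val d.1) ≤ l := by
      rcases T.eq_empty_or_nonempty with h | h
      · refine ⟨0, ?_⟩
        rw [h]
        intro d hd
        exact absurd hd (Set.notMem_empty d)
      · obtain ⟨f, hf⟩ := hT.exists_eq_range h
        obtain ⟨l, hl⟩ := hL (fun n => φ (val (f n).1))
        refine ⟨l, ?_⟩
        rw [hf]
        rintro _ ⟨n, rfl⟩
        exact hl n
    refine ⟨⋃ d, V d, l, isOpen_iUnion hV, hdense, ?_⟩
    intro y hy hly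
    rw [← hTU, Set.mem_iUnion₂] at hy
    obtain ⟨d, hd, hyd⟩ := hy
    exact hVU d ⟨hyd, (hl d hd).trans hly⟩
  choose O l hO hOd hOD using key
  obtain ⟨l', hl'⟩ := hL l
  rw [dense_iff_inter_open]
  rintro U hU ⟨x, hx⟩
  obtain ⟨V, hV, hxV, hVU⟩ := exists_bas hU hx
  have h1 := not_meagre hcof hV ⟨_, hxV⟩ (max l' (φ (val x)))
  have h2 : ∃ y ∈ {y : K | y ∈ V ∧ max l' (φ (val x)) ≤ φ y}, y ∈ ⋂ n, O n := by
    by_contra hcon
    push Not at hcon
    apply h1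
    have h3 : (⋂ n, O n) ∈ residual K := by
      rw [countable_iInter_mem]
      intro n
      exact residual_of_dense_open (hO n) (hOd n)
    have h4 : IsMeagre (⋂ n, O n)ᶜ := by
      rw [IsMeagre, compl_compl]
      exact h3
    exact h4.mono hcon
  obtain ⟨y, ⟨hyV, hy⟩, hyO⟩ := h2
  refine ⟨mk y, hVU ⟨hyV, (le_max_right _ _).trans hy⟩, ?_⟩
  rw [Set.mem_iInter]
  intro n
  exact hOD n (mk y) (Set.mem_iInter.mp hyO n) ((hl' n).trans ((le_max_left _ _).trans hy))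

theorem not_two [FirstCountableTopology K] (hcof : ∀ l : L, ∃ k, l < φ k) (hpos : ∃ l : L, 0 < l) :
    ¬ IsTwoPseudocompact (GT φ) := by
  intro h
  obtain ⟨l, hl⟩ := hpos
  obtain ⟨W, hW, hWb⟩ := (nhds_basis_opens (0 : K)).exists_antitone_subbasis
  have hb : ∀ n, 0 ∈ W n ∧ IsOpen (W n) := hW
  obtain ⟨g, hg⟩ := h (fun n => bas φ (W n) l)
    (fun n => ⟨isOpen_bas (hb n).2 l, bas_nonempty hcof (hb n).2 ⟨0, (hb n).1⟩ l⟩)
    (fun n y hy => ⟨hWb.antitone (Nat.le_succ n) hy.1, hy.2⟩)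
  rw [Set.mem_iInter] at hg
  have hg0 : val g = 0 := by
    by_contra hne
    obtain ⟨A, B, hA, hB, hgA, h0B, hAB⟩ := t2_separation hne
    have hB' : (fun x : K => -x) ⁻¹' B ∈ 𝓝 (0 : K) := by
      apply (continuous_neg.tendsto' 0 0 neg_zero)
      exact hB.mem_nhds h0B
    obtain ⟨n, hn⟩ := hWb.mem_iff.mp hB'
    have hcl := hg n
    rw [mem_closure_iff] at hcl
    obtain ⟨y, ⟨hyA, -⟩, hy⟩ := hcl (bas φ A (φ (val g))) (isOpen_bas hA _) ⟨hgA, le_rfl⟩
    rw [Set.mem_inv] at hy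
    have h1 : val y⁻¹ ∈ W n := hy.1
    rw [val_inv] at h1
    have h2 := hn h1
    rw [Set.mem_preimage, neg_neg] at h2
    exact Set.disjoint_left.mp hAB hyA h2
  have hcl := hg 0
  rw [mem_closure_iff] at hcl
  obtain ⟨y, ⟨-, hy0⟩, hy⟩ := hcl (bas φ Set.univ 0) (isOpen_bas isOpen_univ _)
    ⟨Set.mem_univ _, by rw [hg0, map_zero]⟩
  rw [Set.mem_inv] at hy
  have h1 : l ≤ φ (val y⁻¹) := hy.2
  rw [val_inv, map_neg] at h1
  have h2 : φ (val y) ≤ 0 := by
    have : 0 < - φ (val y) := lt_of_lt_of_le hl h1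
    exact (neg_pos.mp this).le
  have h3 : φ (val y) = 0 := le_antisymm h2 hy0
  rw [h3, neg_zero] at h1
  exact absurd h1 (not_le.mpr hl)

end General

/-- A compact metrizable group with a homomorphism onto a cofinal subgroup of a linearly ordered
group in which countable sets are bounded. -/
theorem exists_hom : ∃ φ : (ℕ → ℤ_[2]) →+ Hyperreal, ∀ l : Hyperreal, ∃ k, l < φ k := by
  obtain ⟨f, hf⟩ : ∃ f : Module.Dual ℚ ℚ_[2], f 1 ≠ 0 := by
    by_contra hcon
    push Not at hcon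
    exact one_ne_zero ((Module.forall_dual_apply_eq_zero_iff ℚ (1 : ℚ_[2])).mp hcon)
  obtain ⟨ψ, hψ⟩ : ∃ ψ : ℤ_[2] →+ ℝ, ψ 1 ≠ 0 := by
    refine ⟨(Rat.castHom ℝ).toAddMonoidHom.comp (f.toAddMonoidHom.comp
      (PadicInt.Coe.ringHom (p := 2)).toAddMonoidHom), ?_⟩
    intro h
    apply hf
    have h1 : ((f ((1 : ℤ_[2]) : ℚ_[2]) : ℚ) : ℝ) = 0 := h
    rw [PadicInt.coe_one] at h1
    exact_mod_cast h1
  let φ : (ℕ → ℤ_[2]) →+ Hyperreal :=
    { toFun := fun x => Hyperreal.ofSeq (fun n => ψ (x n))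
      map_zero' := by
        have : (fun n : ℕ => ψ ((0 : ℕ → ℤ_[2]) n)) = fun _ => 0 := by
          ext n
          simp
        rw [this]
        rfl
      map_add' := by
        intro x y
        have : (fun n : ℕ => ψ ((x + y) n)) = (fun n => ψ (x n)) + fun n => ψ (y n) := by
          ext n
          simp
        rw [this]
        rfl }
  refine ⟨φ, ?_⟩
  intro l
  obtain ⟨s, rfl⟩ := Hyperreal.ofSeq_surjective l
  have hm : ∀ n, ∃ m : ℤ, s n < ψ m := by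
    intro n
    have h1 : ∀ m : ℤ, ψ m = m * ψ 1 := by
      intro m
      have := map_zsmul ψ m 1
      rw [zsmul_one, zsmul_eq_mul] at this
      exact this
    rcases lt_or_gt_of_ne hψ with h | h
    · obtain ⟨m, hm⟩ := exists_int_gt (s n / (-ψ 1))
      refine ⟨-m, ?_⟩
      rw [h1]
      rw [div_lt_iff₀ (neg_pos.mpr h)] at hm
      push_cast
      linarith
    · obtain ⟨m, hm⟩ := exists_int_gt (s n / ψ 1)
      refine ⟨m, ?_⟩
      rw [h1]
      rwa [div_lt_iff₀ h] at hm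
  choose m hm using hm
  refine ⟨fun n => (m n : ℤ_[2]), ?_⟩
  show Hyperreal.ofSeq s < Hyperreal.ofSeq (fun n => ψ (m n))
  rw [Hyperreal.ofSeq_lt_ofSeq]
  exact Eventually.of_forall hm

theorem hyper_bdd (f : ℕ → Hyperreal) : ∃ l, ∀ n, f n ≤ l := by
  choose F hF using fun n => Hyperreal.ofSeq_surjective (f n)
  refine ⟨Hyperreal.ofSeq (fun n => ∑ k ∈ Finset.range (n + 1), |F k n|), fun k => ?_⟩
  rw [← hF k, Hyperreal.ofSeq_le_ofSeq]
  have h1 : ∀ᶠ n in atTop, F k n ≤ ∑ j ∈ Finset.range (n + 1), |F j n| := by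
    filter_upwards [eventually_ge_atTop k] with n hn
    refine (le_abs_self _).trans ?_
    exact Finset.single_le_sum (f := fun j => |F j n|) (fun j _ => abs_nonneg _)
      (Finset.mem_range.mpr (Nat.lt_succ_of_le hn))
  rw [← Nat.cofinite_eq_atTop] at h1
  exact h1.filter_mono (hyperfilter_le_cofinite)

/-- There is a pseudocompact Baire paratopological group which is not 2-pseudocompact. -/
theorem result : ∃ (G : Type) (_ : CommGroup G) (_ : TopologicalSpace G),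
    ContinuousMul G ∧ IsPseudocompact G ∧ BaireSpace G ∧ ¬ IsTwoPseudocompact G := by
  obtain ⟨φ, hφ⟩ := exists_hom
  exact ⟨GT φ, inferInstance, inferInstance, inferInstance, pseudocompact hφ hyper_bdd,
    baire hφ hyper_bdd, not_two hφ ⟨1, one_pos⟩⟩

end Pool.Agent.Results.MP_39d387_al.NotTwoPseudo
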